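import Pool.Agent.Y759.DS.Span

/-! MP_ec2393_nt: every coefficient of the elements of the double shuffle Lie algebra `dm` is a fixed
rational combination of the coefficients at the ballot words of the same length; these words have
depth larger than half of their weight. -/

set_option autoImplicit false

namespace Pool.Agent.Results.MP_ec2393_nt.BallotWords

open Pool.Agent.H777R4.DM

/-- The words of length `N` in `x₀, x₁` that end with `x₁` and in which each initial segment
contains at least as many letters `x₁` as letters `x₀`. -/
def ballotWords (N : ℕ) : Finset (List (Fin 2)) :=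
  Finset.filter (fun u : List (Fin 2) =>
      u.getLast? = some 1 ∧ ∀ k < N + 1, (u.take k).count 0 ≤ (u.take k).count 1)
    ((Finset.univ : Finset (Fin N → Fin 2)).image List.ofFn)

/-- For each word `u` in `x₀, x₁` there are rational numbers `c v` such that
`(ψ | u) = ∑ v, c v * (ψ | v)` for all `ψ ∈ dm`, where the sum is over the ballot words `v` of the
length of `u`. -/
theorem result (u : List (Fin 2)) : ∃ c : List (Fin 2) → ℚ,
    ∀ ψ : A, IsDM ψ → co ψ u = ∑ v ∈ ballotWords u.length, c v * co ψ v := by
  classical
  obtain ⟨N, hN⟩ : ∃ N, u.length = N := ⟨_, rfl⟩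
  rw [hN]
  refine Pool.Agent.Y759.QS.span_of (ballotWords N) (fun ψ h hS w hw => ?_) u hN
  refine Pool.Agent.Y759.QS.ballot_len h N (fun v hv h1 h2 => hS v ?_) w hw
  unfold ballotWords
  rw [Finset.mem_filter, Finset.mem_image]
  refine ⟨⟨fun i => v.get (Fin.cast hv.symm i), Finset.mem_univ _, ?_⟩, h1, fun k _ => ?_⟩
  · subst hv
    simp
  · exact h2 _ (List.take_prefix _ _)

end Pool.Agent.Results.MP_ec2393_nt.BallotWords
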