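import Pool.Agent.Y759.DS.Quot

/-! MP_ec2393_nt: the first layers of the filtration of the double shuffle Lie algebra `dm` by the
number of letters `x₀` are not larger than those of the free Lie algebra on `s₃, s₅, s₇, …`. -/

set_option autoImplicit false

namespace Pool.Agent.Results.MP_ec2393_nt.LetterFiltration

open Pool.Agent.H777R4.DM

/-- The elements of `dm`, homogeneous of weight `N`, all of whose words contain at least `k`
letters `x₀`. -/
def Fil (N k : ℕ) : Submodule ℚ A where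
  carrier := {ψ | IsDM ψ ∧ ∀ u, co ψ u ≠ 0 → u.length = N ∧ k ≤ u.count 0}
  add_mem' := by
    rintro ψ φ ⟨h1, h2⟩ ⟨h3, h4⟩
    refine ⟨isDM_add h1 h3, fun u hu => ?_⟩
    rw [co_add] at hu
    by_cases h : co ψ u = 0
    · refine h4 u fun h' => hu ?_
      rw [h, h', add_zero]
    · exact h2 u h
  zero_mem' := ⟨isDM_zero, fun u hu => absurd (co_zero u) hu⟩
  smul_mem' := by
    rintro c ψ ⟨h1, h2⟩
    refine ⟨isDM_smul h1 c, fun u hu => h2 u fun h' => hu ?_⟩
    rw [co_smul, h', mul_zero]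

/-- The word `x₀ x₁^a x₀ x₁^b`. -/
def word (a b : ℕ) : List (Fin 2) :=
  0 :: (List.replicate a 1 ++ 0 :: List.replicate b 1)

/-- Let `dm_N` be the part of weight `N` of `dm`.

If `N` is odd, an element of `dm_N` with vanishing coefficient at `x₀^{N-1} x₁` has at least three
letters `x₀` in each of its words, and `dm_N` modulo the elements with at least three letters `x₀`
in each word has dimension at most `1`.

If `N` is even, an element of `dm_N` with vanishing coefficients at the words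
`x₀ x₁^{N-3-2j} x₀ x₁^{2j+1}` with `0 ≤ j < ⌊(N-2)/6⌋` has at least four letters `x₀` in each of its
words, and `dm_N` modulo the elements with at least four letters `x₀` in each word has dimension at
most `⌊(N-2)/6⌋`. -/
theorem result :
    (∀ N : ℕ, Odd N →
      (∀ ψ ∈ Fil N 0, co ψ (List.replicate (N - 1) 0 ++ [1]) = 0 → ψ ∈ Fil N 3) ∧
      Module.Finite ℚ (Fil N 0 ⧸ (Fil N 3).submoduleOf (Fil N 0)) ∧
      Module.finrank ℚ (Fil N 0 ⧸ (Fil N 3).submoduleOf (Fil N 0)) ≤ 1) ∧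
    (∀ N : ℕ, Even N →
      (∀ ψ ∈ Fil N 0, (∀ j < (N - 2) / 6, co ψ (word (N - 3 - 2 * j) (2 * j + 1)) = 0) →
        ψ ∈ Fil N 4) ∧
      Module.Finite ℚ (Fil N 0 ⧸ (Fil N 4).submoduleOf (Fil N 0)) ∧
      Module.finrank ℚ (Fil N 0 ⧸ (Fil N 4).submoduleOf (Fil N 0)) ≤ (N - 2) / 6) := by
  constructor
  · intro N hN
    have key : ∀ ψ ∈ Fil N 0, co ψ (List.replicate (N - 1) 0 ++ [1]) = 0 → ψ ∈ Fil N 3 := by
      rintro ψ ⟨h1, h2⟩ h3
      exact ⟨h1, fun u hu => ⟨(h2 u hu).1, Y759.QS.filt_odd h1 (fun v hv => (h2 v hv).1) hN h3 u hu⟩⟩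
    refine ⟨key, ?_⟩
    have := Y759.QS.quot_le (Fil N 0) (Fil N 3) {List.replicate (N - 1) 0 ++ [1]}
      fun ψ hψ h => key ψ hψ (h _ (Finset.mem_singleton_self _))
    simpa using this
  · intro N hN
    have key : ∀ ψ ∈ Fil N 0, (∀ j < (N - 2) / 6, co ψ (word (N - 3 - 2 * j) (2 * j + 1)) = 0) →
        ψ ∈ Fil N 4 := by
      rintro ψ ⟨h1, h2⟩ h3
      exact ⟨h1, fun u hu => ⟨(h2 u hu).1,
        Y759.QS.filt_even h1 (fun v hv => (h2 v hv).1) hN h3 u hu⟩⟩
    refine ⟨key, ?_⟩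
    have := Y759.QS.quot_le (Fil N 0) (Fil N 4)
      ((Finset.range ((N - 2) / 6)).image fun j => word (N - 3 - 2 * j) (2 * j + 1))
      fun ψ hψ h => key ψ hψ fun j hj =>
        h _ (Finset.mem_image_of_mem _ (Finset.mem_range.2 hj))
    refine ⟨this.1, this.2.trans (Finset.card_image_le.trans ?_)⟩
    rw [Finset.card_range]

end Pool.Agent.Results.MP_ec2393_nt.LetterFiltration
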